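import Mathlib
import Pool.Agent.Helper70.RS6

namespace Pool.Agent.Results.MP_8829b8_gt.NotInvariant

/-- Negative answer (in ZFC) to Q2: there are Tychonoff spaces `X`, `Y`, `Z` with `X` paracompact
and `X × Y` normal, and a closed continuous map `f` of `Y` onto `Z`, such that `X × Z` is not
normal. -/
theorem result : ∃ (X Y Z : Type) (_ : TopologicalSpace X) (_ : TopologicalSpace Y)
    (_ : TopologicalSpace Z),
    T35Space X ∧ T35Space Y ∧ T35Space Z ∧ ParacompactSpace X ∧ NormalSpace (X × Y) ∧
    (∃ f : Y → Z, Continuous f ∧ IsClosedMap f ∧ Function.Surjective f) ∧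
    ¬ NormalSpace (X × Z) :=
  Pool.Agent.Helper70.RS.main

end Pool.Agent.Results.MP_8829b8_gt.NotInvariant
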